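import Pool.Agent.TH555.FG.Per

/-!
# MP_335823_al: Q1 for relatively free groups with a finite series whose factors are abelian, of
finite exponent, torsion-free, or similar

Let `G` be a relatively free group (of any rank) whose commutator subgroup `G'` is periodic.  If `G`
has a finite series in which each factor is abelian, or has finite exponent, or is torsion-free (more
generally, for each `n` the elements of finite order of the subgroup generated by the elements of
order dividing `n` have bounded order), then `G'` has finite exponent.  In particular this holds if
`G` lies in a product of finitely many abelian varieties and Burnside varieties, in any order; no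
local finiteness is assumed.

Idea of the proof.  Let `n` be the order of `[a, b]` and `q` the order of the element
`(ab) ^ E (a ^ E b ^ E)⁻¹` of `G'`, for two free generators `a`, `b`; these become laws of `G`.  Suppose
that `g ^ E ∈ V` for all `g ∈ G'`, with `V` normal in `G`.  Modulo `[V, G]` the `E`-th powers of the
elements of `G'` are central, so `g ↦ g ^ (E q)` is a homomorphism on `G'`, which is generated by
elements of order dividing `n`; so `g ^ (E q n) ∈ [V, G]`.  Now `[V, G]` is generated by elements of `V`
of order dividing `n`; if `V / W` is abelian then `[V, G] / ([V, G] ∩ W)` has exponent dividing `n`, so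
`g ^ (E q n n) ∈ W`, and if the elements of finite order of the subgroup of `V / W` generated by the
elements of order dividing `n` have bounded order then again some `g ^ E'` is in `W`.
-/

namespace Pool.Agent.Results.MP_335823_al.AbelianOrTameSeries

open scoped commutatorElement

/-- The commutators of elements of `V` lie in `W`.  For `W` normal in `V`: `V / W` is abelian. -/
def AbelianStep {G : Type} [Group G] (V W : Subgroup G) : Prop := ∀ x ∈ V, ∀ y ∈ V, ⁅x, y⁆ ∈ W

/-- For each `n ≥ 1` there is `f ≥ 1` such that `x ^ f ∈ W` for all elements `x` of the subgroup
generated by the elements `v` of `V` with `v ^ n ∈ W`, if some positive power of `x` is in `W`.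
For `W` normal in `V`: for each `n`, the elements of finite order of the subgroup of `V / W` generated
by the elements of order dividing `n` have bounded order.  This holds for instance if `V / W` has
finite exponent, or is torsion-free, or if its elements of finite order have bounded order. -/
def TameStep {G : Type} [Group G] (V W : Subgroup G) : Prop :=
  ∀ n : ℕ, 0 < n → ∃ f : ℕ, 0 < f ∧ ∀ x ∈ Subgroup.closure {v : G | v ∈ V ∧ v ^ n ∈ W},
    (∃ k : ℕ, 0 < k ∧ x ^ k ∈ W) → x ^ f ∈ W

/-- Let `G` be relatively free, with free generating set `X`, and let all elements of its commutator
subgroup `G'` have finite order.  If there are subgroups `N 0 = 1, N 1, …, N s = G` such that for all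
`i < s` the step from `N (i + 1)` to `N i` is abelian or tame, then `G'` has finite exponent. -/
theorem result (G : Type) [Group G] (X : Set G) (hX : Subgroup.closure X = ⊤)
    (hfree : ∀ f : X → G, ∃ φ : G →* G, ∀ x : X, φ (x : G) = f x)
    (hper : ∀ g ∈ commutator G, IsOfFinOrder g)
    (s : ℕ) (N : ℕ → Subgroup G) (h0 : N 0 = ⊥) (hs : N s = ⊤)
    (hN : ∀ i < s, AbelianStep (N (i + 1)) (N i) ∨ TameStep (N (i + 1)) (N i)) :
    ∃ n : ℕ, 0 < n ∧ ∀ g ∈ commutator G, g ^ n = 1 :=
  Pool.Agent.TH555.Per.main (Pool.Agent.TH555.Per.pp_of_free X hX hfree hper) hper s N h0 hs hN

end Pool.Agent.Results.MP_335823_al.AbelianOrTameSeries
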